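import Pool.Agent.H15.G.R_seed8.TH885.NW.Exp
import Pool.Agent.H15.G.R_seed8.TH603.Cut.Deg
import Pool.Agent.H15.G.R_seed8.TH603.EL.Sq

/-! Self-intersection of effective classes with nearly equal multiplicities, every `n ≥ 10`. -/

namespace Pool.Agent.TH142.NU

open Finset Pool.Agent.TH176.Nag Pool.Agent.TH603.Sur Pool.Agent.TH603.Cut Pool.Agent.H932R3

/-- no nonzero form if the expected dimension is zero -/
theorem false_of_expDim {L : Type} [Field L] [CharZero L] {n : ℕ} {w : Fin n → ℕ} {d : ℕ}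
    {P : Fin n → Fin 2 → L}
    (h : ExpDim L w P d) (hc : (d + 2).choose 2 ≤ ∑ i, (w i + 1).choose 2)
    {G : MvPolynomial (Fin 3) L} (hG : G ≠ 0) (hGd : G.IsHomogeneous d)
    (hGm : ∀ i, G ∈ (Ideal.span ({MvPolynomial.X 0 - MvPolynomial.C (P i 0) * MvPolynomial.X 2,
          MvPolynomial.X 1 - MvPolynomial.C (P i 1) * MvPolynomial.X 2} :
            Set (MvPolynomial (Fin 3) L))) ^ (w i)) : False := by
  unfold ExpDim at h
  have h4 : (d + 2).choose 2 - ∑ i, (w i + 1).choose 2 = 0 := Nat.sub_eq_zero_of_le hc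
  rw [h4] at h
  have : Module.Finite L ↥(MvPolynomial.homogeneousSubmodule (Fin 3) L d ⊓
      Submodule.restrictScalars L
        (⨅ i : Fin n, (Ideal.span ({MvPolynomial.X 0 - MvPolynomial.C (P i 0) * MvPolynomial.X 2,
          MvPolynomial.X 1 - MvPolynomial.C (P i 1) * MvPolynomial.X 2} :
            Set (MvPolynomial (Fin 3) L))) ^ (w i))) := by
    have : Module.Finite L ↥(MvPolynomial.homogeneousSubmodule (Fin 3) L d) :=
      Module.finite_of_finrank_pos (by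
        rw [TH603.Sur.finrank_forms]
        exact Nat.choose_pos (by omega))
    exact Submodule.finiteDimensional_inf_left _ _
  have h5 := Submodule.finrank_eq_zero.1 h
  apply hG
  have h6 : G ∈ (MvPolynomial.homogeneousSubmodule (Fin 3) L d ⊓
      Submodule.restrictScalars L
        (⨅ i : Fin n, (Ideal.span ({MvPolynomial.X 0 - MvPolynomial.C (P i 0) * MvPolynomial.X 2,
          MvPolynomial.X 1 - MvPolynomial.C (P i 1) * MvPolynomial.X 2} :
            Set (MvPolynomial (Fin 3) L))) ^ (w i))) := by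
    refine ⟨hGd, ?_⟩
    show G ∈ (⨅ i : Fin n, _ : Ideal _)
    rw [Ideal.mem_iInf]
    exact hGm
  rw [h5] at h6
  exact (Submodule.mem_bot L).1 h6

theorem choose_cond {n : ℕ} {w : Fin n → ℕ} {d : ℕ}
    (h : (d + 2) * (d + 1) ≤ ∑ i, (w i + 1) * w i) :
    (d + 2).choose 2 ≤ ∑ i, (w i + 1).choose 2 := by
  have h9 : 2 * (d + 2).choose 2 = (d + 2) * (d + 1) := by
    rw [Nat.choose_two_right]
    have h10 : 2 ∣ (d + 2) * (d + 2 - 1) := (Nat.even_mul_pred_self (d + 2)).two_dvd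
    rw [Nat.mul_div_cancel' h10]
    rfl
  have h11 : ∀ i, 2 * (w i + 1).choose 2 = (w i + 1) * w i := by
    intro i
    rw [Nat.choose_two_right]
    have h10 : 2 ∣ (w i + 1) * (w i + 1 - 1) := (Nat.even_mul_pred_self (w i + 1)).two_dvd
    rw [Nat.mul_div_cancel' h10]
    rfl
  have h12 : 2 * ∑ i, (w i + 1).choose 2 = ∑ i, (w i + 1) * w i := by
    rw [Finset.mul_sum]
    exact Finset.sum_congr rfl fun i _ => h11 i
  omega

theorem key_arith {n : ℕ} (hn : 10 ≤ n) {w : Fin n → ℕ} {d : ℕ} (hw : 0 < ∑ i, w i) 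
    (hcon : √(n : ℝ) * d ≤ ((∑ i, w i : ℕ) : ℝ)) (Emp : (Fin n → ℕ) → ℕ → Prop)
    (E1 : ∀ (v : Fin n → ℕ) (e : ℕ), √(n : ℝ) * (e : ℝ) < ∑ i, (v i : ℝ) → Emp v e)
    (E2 : ∀ (v : Fin n → ℕ) (e k : ℕ), 4 ≤ k → 0 < e → n = k ^ 2 → (k : ℝ) * e ≤ ∑ i, (v i : ℝ) → Emp v e) :
    ∃ N : ℕ, Emp (fun i => N * w i) (N * d) ∧
      (N * d + 2) * (N * d + 1) ≤ ∑ i, (N * w i + 1) * (N * w i) := by
  have hnR : (10 : ℝ) ≤ n := by exact_mod_cast hn
  obtain ⟨N, hN⟩ : ∃ N, N = 3 * d + 2 := ⟨_, rfl⟩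
  obtain ⟨W, hW⟩ : ∃ W, W = ∑ i, w i := ⟨_, rfl⟩
  obtain ⟨Q, hQ⟩ : ∃ Q, Q = ∑ i, (w i) ^ 2 := ⟨_, rfl⟩
  rw [← hW] at hw hcon
  have hcs : W ^ 2 ≤ n * Q := by
    have h1 : (W : ℝ) ^ 2 ≤ n * Q := by
      have := sq_sum_le_card_mul_sum_sq (s := (Finset.univ : Finset (Fin n)))
        (f := fun i => (w i : ℝ))
      rw [Finset.card_univ, Fintype.card_fin] at this
      rw [hW, hQ]
      push_cast
      exact this
    exact_mod_cast h1
  have hrhs : ∑ i, (N * w i + 1) * (N * w i) = N ^ 2 * Q + N * W := by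
    rw [hQ, hW, Finset.mul_sum, Finset.mul_sum, ← Finset.sum_add_distrib]
    exact Finset.sum_congr rfl fun i _ => by ring
  refine ⟨N, ?_⟩
  rw [hrhs]
  have hNW : (∑ i, ((N * w i : ℕ) : ℝ)) = N * W := by
    rw [hW]
    push_cast
    rw [Finset.mul_sum]
  have hNpos : (0 : ℝ) < N := by
    have : 0 < N := by omega
    exact_mod_cast this
  rcases lt_or_eq_of_le hcon with hlt | heq
  · constructor
    · refine E1 _ _ ?_
      rw [hNW]
      push_cast
      calc √(n : ℝ) * (N * d) = N * (√(n : ℝ) * d) := by ring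
        _ < N * W := mul_lt_mul_of_pos_left hlt hNpos
    · have h1 : (n : ℝ) * (d : ℝ) ^ 2 < (W : ℝ) ^ 2 := by
        have h2 : (0 : ℝ) ≤ √(n : ℝ) * d := by positivity
        have h3 := pow_lt_pow_left₀ hlt h2 (by norm_num : 2 ≠ 0)
        rw [mul_pow, Real.sq_sqrt (by linarith)] at h3
        exact h3
      have h2 : n * d ^ 2 < W ^ 2 := by exact_mod_cast h1
      have h3 : n * d ^ 2 < n * Q := lt_of_lt_of_le h2 hcs
      have h4 : d ^ 2 < Q := lt_of_mul_lt_mul_left h3 (Nat.zero_le n)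
      have h5 : d ^ 2 + 1 ≤ Q := h4
      have h6 : N ^ 2 * (d ^ 2 + 1) ≤ N ^ 2 * Q := Nat.mul_le_mul_left _ h5
      have h7 : 3 * (N * d) + 2 ≤ N ^ 2 := by
        rw [hN]
        nlinarith
      nlinarith
  · have h1 : (n : ℝ) * (d : ℝ) ^ 2 = (W : ℝ) ^ 2 := by
      rw [← heq, mul_pow, Real.sq_sqrt (by linarith)]
    have h2 : n * d ^ 2 = W ^ 2 := by exact_mod_cast h1
    have hd : 0 < d := by
      rcases Nat.eq_zero_or_pos d with h | h
      · exfalso
        rw [h] at h2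
        have : 0 < W ^ 2 := by positivity
        simp at h2
        omega
      · exact h
    have h3 : d ∣ W := by
      have : d ^ 2 ∣ W ^ 2 := ⟨n, by rw [← h2]; ring⟩
      exact (Nat.pow_dvd_pow_iff (by norm_num)).1 this
    obtain ⟨k, hk⟩ := h3
    have h4 : n = k ^ 2 := by
      have h5 : d ^ 2 * n = d ^ 2 * k ^ 2 := by
        rw [mul_comm, h2, hk]; ring
      exact Nat.eq_of_mul_eq_mul_left (by positivity) h5
    have hk4 : 4 ≤ k := by
      by_contra hc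
      have : k ≤ 3 := by omega
      nlinarith
    constructor
    · apply E2 _ _ k hk4 (Nat.mul_pos (by omega) hd) h4
      rw [hNW, hk]
      push_cast
      apply le_of_eq
      ring
    · have h5 : d ^ 2 ≤ Q := by
        have : n * d ^ 2 ≤ n * Q := by rw [h2]; exact hcs
        exact le_of_mul_le_mul_left this (by omega)
      have h6 : N ^ 2 * d ^ 2 ≤ N ^ 2 * Q := Nat.mul_le_mul_left _ h5
      have h7 : 4 * d ≤ W := by rw [hk, mul_comm]; exact Nat.mul_le_mul_left _ hk4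
      have h8 : N * (4 * d) ≤ N * W := Nat.mul_le_mul_left _ h7
      have h9 : 2 ≤ N * d := by nlinarith
      nlinarith

theorem near_arith {n m : ℕ} (hn : 23 ≤ n) (hm : 1 ≤ m)
    {w : Fin n → ℕ} (hw : ∀ i, w i = m ∨ w i = m + 1) {d : ℕ}
    (hcon : d ^ 2 ≤ ∑ i, (w i) ^ 2) :
    (d + 2) * (d + 1) ≤ ∑ i, (w i + 1) * w i ∧
    (m ≤ 4 → ((m + 1 : ℕ) : ℝ) ≤ n - 6 * √(n : ℝ) + 11) ∧
    (5 ≤ m → 2 * (d : ℝ) + 3 - √(n : ℝ) - 2 * (∑ i, (w i : ℝ)) / √(n : ℝ) <
            - min (√(n : ℝ) - 3) (2 / 3 + 17 / (4 * √(n : ℝ)))) := by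
  have hnR : (23 : ℝ) ≤ n := by exact_mod_cast hn
  have hmR : (1 : ℝ) ≤ m := by exact_mod_cast hm
  obtain ⟨s, hsdef⟩ : ∃ s, s = √(n : ℝ) := ⟨_, rfl⟩
  have hs : s * s = n := by rw [hsdef]; exact Real.mul_self_sqrt (by linarith)
  have hs4 : 4.7958 ≤ s := by rw [hsdef]; exact Real.le_sqrt_of_sq_le (by norm_num; linarith)
  have hs0 : 0 < s := by linarith
  obtain ⟨W, hW⟩ : ∃ W : ℝ, W = ∑ i, (w i : ℝ) := ⟨_, rfl⟩
  obtain ⟨Q, hQ⟩ : ∃ Q : ℝ, Q = ∑ i, (w i : ℝ) ^ 2 := ⟨_, rfl⟩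
  have hdQ : (d : ℝ) ^ 2 ≤ Q := by rw [hQ]; exact_mod_cast hcon
  have hWn : (n : ℝ) * m ≤ W := by
    have : (n : ℝ) * m = ∑ _i : Fin n, (m : ℝ) := by simp
    rw [this, hW]
    refine sum_le_sum fun i _ => ?_
    rcases hw i with h | h <;> rw [h]
    push_cast
    linarith
  have hW0 : 0 < W := by nlinarith
  -- the variance
  obtain ⟨b, hb⟩ : ∃ b : ℝ, b = W - n * m := ⟨_, rfl⟩
  have hQb : Q = n * m ^ 2 + (2 * m + 1) * b := by
    have e1 : ∀ i, (w i : ℝ) ^ 2 = m ^ 2 + (2 * m + 1) * ((w i : ℝ) - m) := by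
      intro i
      rcases hw i with h | h <;> rw [h]
      · ring
      · push_cast; ring
    rw [hQ, Finset.sum_congr rfl fun i _ => e1 i, Finset.sum_add_distrib, ← Finset.mul_sum,
      Finset.sum_sub_distrib, ← hW, hb]
    simp
  have hvar : n * Q ≤ W ^ 2 + (n : ℝ) ^ 2 / 4 := by
    have e2 : W = n * m + b := by rw [hb]; ring
    have e3 : W ^ 2 + (n : ℝ) ^ 2 / 4 - n * Q = (b - n / 2) ^ 2 := by
      rw [hQb, e2]; ring
    nlinarith [sq_nonneg (b - (n : ℝ) / 2)]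
  have hsd : s * d ≤ W + n / (8 * m) := by
    have h1 : (s * d) ^ 2 ≤ (W + n / (8 * m)) ^ 2 := by
      have h2 : (s * d) ^ 2 ≤ n * Q := by
        rw [mul_pow, pow_two s, hs]
        exact mul_le_mul_of_nonneg_left hdQ (by linarith)
      have h3 : (n : ℝ) ^ 2 / 4 ≤ 2 * W * (n / (8 * m)) := by
        have e : 2 * W * ((n : ℝ) / (8 * m)) = W * n / (4 * m) := by field_simp; ring
        rw [e, div_le_div_iff₀ (by norm_num) (by positivity)]
        nlinarith
      nlinarith [sq_nonneg ((n : ℝ) / (8 * m))]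
    exact (le_abs_self _).trans (abs_le_of_sq_le_sq h1 (by positivity))
  have hn8 : (n : ℝ) / (8 * m) ≤ n / 8 := by
    apply div_le_div_of_nonneg_left (by linarith) (by norm_num) (by linarith)
  refine ⟨?_, ?_, ?_⟩
  · have h1 : s * (3 * d + 2) ≤ s * W := by
      have h2 : (n : ℝ) ≤ W := le_trans (by nlinarith) hWn
      have h3 : 0 ≤ (s - 3) * (W - n) := mul_nonneg (by linarith) (by linarith)
      have h5 : 3 * n / 8 + 2 * s ≤ (s - 3) * (n : ℝ) := by
        rw [← hs]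
        nlinarith
      nlinarith
    have h2 : 3 * (d : ℝ) + 2 ≤ W := le_of_mul_le_mul_left h1 hs0
    have h3 : ((d : ℝ) + 2) * (d + 1) ≤ ∑ i, ((w i : ℝ) + 1) * w i := by
      have e : ∑ i, ((w i : ℝ) + 1) * w i = Q + W := by
        rw [hQ, hW, ← Finset.sum_add_distrib]
        exact Finset.sum_congr rfl fun i _ => by ring
      rw [e]
      nlinarith
    exact_mod_cast h3
  · intro hm4
    have h1 : ((m + 1 : ℕ) : ℝ) ≤ 5 := by exact_mod_cast (by omega : m + 1 ≤ 5)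
    rw [← hsdef, ← hs]
    nlinarith
  · intro hm5
    have hm5R : (5 : ℝ) ≤ m := by exact_mod_cast hm5
    have h1 : (n : ℝ) / (8 * m) ≤ n / 40 := by
      apply div_le_div_of_nonneg_left (by linarith) (by norm_num) (by linarith)
    refine lt_of_lt_of_le ?_ (neg_le_neg (min_le_right _ _))
    rw [← hsdef, ← hW]
    have h2 : (2 * (d : ℝ) + 3 - s - 2 * W / s) * s < (-(2 / 3 + 17 / (4 * s))) * s := by
      have e1 : (2 * (d : ℝ) + 3 - s - 2 * W / s) * s = 2 * (s * d) + 3 * s - s * s - 2 * W := by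
        field_simp
      have e2 : (-(2 / 3 + 17 / (4 * s))) * s = -(2 / 3 * s) - 17 / 4 := by
        field_simp
        ring
      rw [e1, e2, hs]
      have h3 : 11 / 3 * s + 17 / 4 < 19 / 20 * n := by
        rw [← hs]
        nlinarith
      linarith
    exact lt_of_mul_lt_mul_right h2 hs0.le

/-- no nonzero form at generic points if the system is empty somewhere -/
theorem false_of_Emp {L : Type} [Field L] [CharZero L] {n : ℕ} {w : Fin n → ℕ} {d : ℕ}
    {P : Fin n → Fin 2 → L}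
    (hP : AlgebraicIndependent ℚ (fun ij : Fin n × Fin 2 => P ij.1 ij.2))
    (h : Emp w (TZ d)) (hc : (d + 2).choose 2 ≤ ∑ i, (w i + 1).choose 2)
    {G : MvPolynomial (Fin 3) L} (hG : G ≠ 0) (hGd : G.IsHomogeneous d)
    (hGm : ∀ i, G ∈ (Ideal.span ({MvPolynomial.X 0 - MvPolynomial.C (P i 0) * MvPolynomial.X 2,
          MvPolynomial.X 1 - MvPolynomial.C (P i 1) * MvPolynomial.X 2} :
            Set (MvPolynomial (Fin 3) L))) ^ (w i)) : False := by
  obtain ⟨F, hF, hF'⟩ := full_open h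
  exact false_of_expDim (hF' P (fun h0 => hF (hP.eq_zero_of_aeval_eq_zero F h0)) d le_rfl)
    hc hG hGd hGm

/-- **Nagata's inequality**, ideal form, strict. -/
theorem nagata_strict {L : Type} [Field L] [CharZero L] {n : ℕ} (hn : 10 ≤ n) {w : Fin n → ℕ}
    {P : Fin n → Fin 2 → L}
    (hP : AlgebraicIndependent ℚ (fun ij : Fin n × Fin 2 => P ij.1 ij.2)) {d : ℕ}
    {G : MvPolynomial (Fin 3) L} (hG : G ≠ 0) (hGd : G.IsHomogeneous d)
    (hGm : ∀ i, G ∈ (Ideal.span ({MvPolynomial.X 0 - MvPolynomial.C (P i 0) * MvPolynomial.X 2,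
          MvPolynomial.X 1 - MvPolynomial.C (P i 1) * MvPolynomial.X 2} :
            Set (MvPolynomial (Fin 3) L))) ^ (w i)) (hw : 0 < ∑ i, w i) :
    ((∑ i, w i : ℕ) : ℝ) < √(n : ℝ) * d := by
  by_contra hcon
  rw [not_lt] at hcon
  obtain ⟨N, hE, hc⟩ := key_arith hn hw hcon (fun v e => Emp v (TZ e))
    (fun v e h => by
      refine Pool.Agent.TH868.NG.Emp_plane (ι := Fin n) ?_ ?_
      · rw [Fintype.card_fin]; omega
      · rw [Fintype.card_fin]; exact h)
    (fun v e k hk he hn h =>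
      Pool.Agent.TH603.EL.Emp_square hk he (by rw [Fintype.card_fin, hn]) h)
  refine false_of_Emp hP hE (choose_cond hc) (pow_ne_zero N hG)
    (G := G ^ N) ?_ fun i => ?_
  · rw [mul_comm]
    exact hGd.pow N
  · rw [mul_comm N (w i), pow_mul]
    exact Ideal.pow_mem_pow (hGm i) N

/-- near-uniform systems with nonpositive self-intersection are empty -/
theorem near_pos {L : Type} [Field L] [CharZero L] {n m : ℕ} (hn : 23 ≤ n) (hm : 1 ≤ m)
    {w : Fin n → ℕ} (hw : ∀ i, w i = m ∨ w i = m + 1) {P : Fin n → Fin 2 → L}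
    (hP : AlgebraicIndependent ℚ (fun ij : Fin n × Fin 2 => P ij.1 ij.2)) {d : ℕ}
    {G : MvPolynomial (Fin 3) L} (hG : G ≠ 0) (hGd : G.IsHomogeneous d)
    (hGm : ∀ i, G ∈ (Ideal.span ({MvPolynomial.X 0 - MvPolynomial.C (P i 0) * MvPolynomial.X 2,
          MvPolynomial.X 1 - MvPolynomial.C (P i 1) * MvPolynomial.X 2} :
            Set (MvPolynomial (Fin 3) L))) ^ (w i)) :
    ∑ i, (w i) ^ 2 < d ^ 2 := by
  by_contra hcon
  rw [not_lt] at hcon
  obtain ⟨h1, h2, h3⟩ := near_arith hn hm hw hcon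
  have hExp : ExpDim L w P d := by
    rcases le_or_gt m 4 with hm4 | hm5
    · obtain ⟨F, hF, hF'⟩ := near_points (L := L) (n := n) (m := m) (by omega) hm hw
        (near_cond (by omega) hw (Or.inl (h2 hm4)))
      exact hF' P (fun h0 => hF (hP.eq_zero_of_aeval_eq_zero F h0)) d
    · obtain ⟨F, hF, hF'⟩ := Pool.Agent.TH885.NW.exp_near (L := L) (by omega : 10 ≤ n) hm hw
      exact hF' P (fun h0 => hF (hP.eq_zero_of_aeval_eq_zero F h0)) d (Or.inr (h3 hm5))
  exact false_of_expDim hExp (choose_cond h1) hG hGd hGm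

end Pool.Agent.TH142.NU
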